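import Pool.Agent.J6H13.AP.Fin

/-!
# Simultaneous primes `a_i n + 1` along almost primes `n`, for a positive proportion of the sets of multipliers

Let `V` be any large finite set of multipliers such that for every prime `p ≤ z` some `n` makes `p` divide none of
the numbers `n`, `a n + 1` (`a ∈ V`). For every large `x` at least the proportion `δ - ε` of the `(k + 1)`-tuples
`(a_0, ..., a_k)` of different elements of `V` are such that there are at least `x / (log x) ^ C` integers `n ≤ x`
with at most `r` prime factors, all of them larger than `x ^ (1 / r)`, for which all the numbers `a_i n + 1` are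
prime. Here `δ = (5 / 18) ^ k`, and `δ = 1 / 3` for `k = 1`; `z`, `r`, `C` and the size of `V` depend on `k` and `ε`
only. (Since there are finitely many families of tuples, one family of this size works for arbitrarily large `x`.)

In the question `n` has to be prime. No case was known in which two numbers `a n + 1`, `b n + 1` with `a, b` from a
given set are simultaneously prime and `n` has a bounded number of prime factors.

Proof: the coloured Maynard-Tao theorem with the constant `18 / 5` (`Pool.Agent.Y827.RO.lamR0`, starting files),
whose weights make all the forms almost prime, is applied to `14 T + 1` classes: each of `T` classes of forms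
`a n + 1` is cut into `14` parts, and the last class contains the form `n`. The loss of one class does not change the
constant. The passage to tuples is that of the starting files (`Pool.Agent.W25.QL.main_gen`).
-/

set_option autoImplicit false

open Finset Filter

namespace Pool.Agent.Results.MP_bca3e5_nt.AlmostPrimeArguments

/-- the proportion: `1 / 3` for pairs, `(5 / 18) ^ k` for `(k + 1)`-tuples -/
noncomputable def proportion (k : ℕ) : ℝ := if k = 1 then 1 / 3 else (5 / 18) ^ k

open Classical in
/-- the number of the `n ≤ x` with at most `r` prime factors (counted with multiplicity), all of them larger than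
`x ^ (1 / r)`, for which all the `a i * n + 1` are prime -/
noncomputable def count {k : ℕ} (r x : ℕ) (a : Fin (k + 1) → ℕ) : ℕ :=
  ((Icc 1 x).filter (fun n : ℕ => n.primeFactorsList.length ≤ r ∧ (∀ q : ℕ, q.Prime → q ∣ n → x < q ^ r) ∧
    ∀ i, (a i * n + 1).Prime)).card

open Classical in
theorem result (k : ℕ) (ε : ℝ) (hε : 0 < ε) : ∃ z n₀ r C : ℕ, ∀ A : ℕ, ∀ᶠ x : ℕ in atTop,
    ∀ V : Finset ℕ, (∀ a ∈ V, 1 ≤ a ∧ a ≤ A) →
    (∀ p : ℕ, p.Prime → p ≤ z → ∃ n : ℕ, ¬ p ∣ n ∧ ∀ a ∈ V, ¬ p ∣ a * n + 1) → n₀ ≤ V.card →
    (proportion k - ε) * (V.card : ℝ) ^ (k + 1) ≤ (((Fintype.piFinset (fun _ : Fin (k + 1) => V)).filter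
      (fun a => Function.Injective a ∧ (x : ℝ) / (Real.log x) ^ C ≤ (count r x a : ℝ))).card : ℝ) := by
  obtain ⟨z, n₀, r, C, h⟩ := Pool.Agent.J6H13.AP.formsP k ε hε
  refine ⟨z, n₀, r, C, fun A => ?_⟩
  filter_upwards [h A] with x hx V hV hloc hn
  refine (hx V hV ?_ hn).trans (le_of_eq ?_)
  · intro p hp hpz
    obtain ⟨n, h1, h2⟩ := hloc p hp hpz
    refine ⟨n, fun hd => h1 (by exact_mod_cast hd), fun a ha hd => h2 a ha ?_⟩
    exact_mod_cast hd
  · congr 2
    apply filter_congr
    intro a _
    have e : Pool.Agent.J6H13.AP.cntP r (univ.image a) x = count r x a := by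
      unfold Pool.Agent.J6H13.AP.cntP count
      congr 1
      apply filter_congr
      intro n _
      simp only [mem_image, mem_univ, true_and, forall_exists_index, forall_apply_eq_imp_iff]
    rw [e]

end Pool.Agent.Results.MP_bca3e5_nt.AlmostPrimeArguments
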