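import Mathlib
import Pool.Agent.J6H52.AP.Tree
import Pool.Agent.J6H52.Branch.Chains

/-!
# Infinite sets of multipliers `a` with simultaneous primes `a n + 1` along almost primes `n`; trees of multipliers

Every infinite set `V` of even positive integers (for instance a set of powers of `2`, or any other thin set) has an
infinite subset `M` all of whose finite subsets `F` satisfy the assertion of the question with an almost prime `n` in
place of a prime `n`: there are `r` and `C` such that for arbitrarily large `x` at least `x / (log x) ^ C` integers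
`n ≤ x` have at most `r` prime factors, all of them larger than `x ^ (1 / r)`, and are such that `a n + 1` is prime
for all `a ∈ F`. Moreover `b n + 1` is composite for all other multipliers `b` of any given finite set. For a prime
`n > 2` the number `a n + 1` can be prime only if `a` is even; so evenness cannot be omitted, and it is the only
assumption.

More generally, attach to every finite word over an alphabet with `k ≥ 1` letters a pair `(a, b)` of coprime positive
integers with `a + b` odd (for the question: `b = 1`, `a` even), finite-to-one along every infinite branch of the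
tree of words. The tree has a regular subtree (in the sense of Carlson and Simpson) such that the forms `a n + b` of
any finite set of vertices on ANY one of the continuum many branches of the subtree are simultaneously prime, and the
other forms of any given finite set composite, for at least `x / (log x) ^ C` almost primes `n ≤ x` as above, for
arbitrarily large `x`. One subtree serves for countably many labellings. The infinite sets are the case `k = 1`.

What is new in the analytic part is a sieve for infinitely many blocks of forms whose argument `n` is almost prime: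
the block sieve of the starting files (`Pool.Agent.H361R2.Inf`, block sizes independent of the number of the
blocks) is carried out in a given residue class; the mass of the integers with a prime factor `≤ x ^ δ` is bounded
(`Pool.Agent.J6H52.AP.fbb`), as well as the second moment of the weights (`mu_sq`); the resulting finitely additive
measures (`meas`) of positive mass on each block live on the almost primes of a class in which the unwanted forms
have composite values. The limit over the blocks and an intersectivity lemma of the starting files give exact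
infinite patterns (`seqP`, `inf_forms`). The passage to trees is by ranks of patterns and Carlson-Simpson
ultrafilters (`rootA`, `mainA`), as in `Pool.Agent.J6H52.Branch`.
-/

set_option autoImplicit false

open Filter

namespace Pool.Agent.Results.MP_bca3e5_nt.AlmostPrimeBranches

open Classical in
/-- the number of the `n ≤ x` in `S` with at most `r` prime factors (counted with multiplicity), all of them larger
than `x ^ (1 / r)` -/
noncomputable def almostPrimes (r : ℕ) (S : Set ℕ) (x : ℕ) : ℕ :=
  ((Finset.Icc 1 x).filter (fun n : ℕ => n.primeFactorsList.length ≤ r ∧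
    (∀ q : ℕ, q.Prime → q ∣ n → x < q ^ r) ∧ n ∈ S)).card

/-- Part 1. Every infinite set `V` of even positive integers has an infinite subset `M` such that for all finite sets
`F ⊆ M` and `T` there are `r` and `C` such that for arbitrarily large `x` there are at least `x / (log x) ^ C`
integers `n ≤ x` with at most `r` prime factors, all larger than `x ^ (1 / r)`, for which `a n + 1` is prime for all
`a ∈ F` and for no other `a ∈ T`.

Part 2. For `j = 0, 1, …` let `P j` be a labelling of the words over `k ≥ 1` letters by pairs `(a, b)` of coprime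
positive integers with `a + b` odd, finite-to-one along every infinite branch. There are variable words `w 0, w 1, …`
(`none` is the variable) such that for all increasing sequences `J`, all sequences `c` of letters, all `j ≤ J 0` and
all finite sets `L` of positive integers and `T` of pairs there are `r` and `C` such that for arbitrarily large `x`
at least `x / (log x) ^ C` integers `n ≤ x` with at most `r` prime factors, all larger than `x ^ (1 / r)`, have the
property that the forms `a n + b` attached by `P j` to the words `node l = w (J 0)[c 0] ⋯ w (J (l - 1))[c (l - 1)]`,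
`l ∈ L`, are all prime at `n`, and no other form of `T` is prime at `n`. -/
theorem result :
    (∀ V : Set ℕ, V.Infinite → (∀ a ∈ V, 0 < a ∧ Even a) → ∃ M ⊆ V, M.Infinite ∧
      ∀ F T : Finset ℕ, ↑F ⊆ M → ∃ r C : ℕ, ∃ᶠ x : ℕ in atTop, (x : ℝ) / (Real.log x) ^ C ≤
        almostPrimes r {n | (∀ a ∈ F, (a * n + 1).Prime) ∧ ∀ b ∈ T, (b * n + 1).Prime → b ∈ F} x) ∧
    (∀ (k : ℕ), 0 < k → ∀ P : ℕ → List (Fin k) → ℕ × ℕ,
      (∀ j t, 1 ≤ (P j t).1 ∧ 1 ≤ (P j t).2 ∧ (P j t).1.Coprime (P j t).2 ∧ Odd ((P j t).1 + (P j t).2)) →
      (∀ j (c : ℕ → Fin k) (f : ℕ × ℕ), {n : ℕ | P j ((List.range n).map c) = f}.Finite) →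
      ∃ w : ℕ → List (Option (Fin k)), (∀ i, none ∈ w i) ∧
        ∀ J : ℕ → ℕ, StrictMono J → ∀ (c : ℕ → Fin k) (j : ℕ), j ≤ J 0 →
          let node : ℕ → List (Fin k) := fun l =>
            (List.range l).flatMap fun i => (w (J i)).map fun o => o.getD (c i)
          ∀ (L : Finset ℕ) (T : Finset (ℕ × ℕ)), (∀ l ∈ L, 1 ≤ l) → (∀ f ∈ T, 1 ≤ f.1 ∧ 1 ≤ f.2) →
            ∃ r C : ℕ, ∃ᶠ x : ℕ in atTop, (x : ℝ) / (Real.log x) ^ C ≤
              almostPrimes r {n | (∀ l ∈ L, ((P j (node l)).1 * n + (P j (node l)).2).Prime) ∧
                ∀ f ∈ T, (f.1 * n + f.2).Prime → ∃ l ∈ L, f = P j (node l)} x) := by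
  classical
  have hpart2 : ∀ (k : ℕ), 0 < k → ∀ P : ℕ → List (Fin k) → ℕ × ℕ,
      (∀ j t, 1 ≤ (P j t).1 ∧ 1 ≤ (P j t).2 ∧ (P j t).1.Coprime (P j t).2 ∧ Odd ((P j t).1 + (P j t).2)) →
      (∀ j (c : ℕ → Fin k) (f : ℕ × ℕ), {n : ℕ | P j ((List.range n).map c) = f}.Finite) →
      ∃ w : ℕ → List (Option (Fin k)), (∀ i, none ∈ w i) ∧
        ∀ J : ℕ → ℕ, StrictMono J → ∀ (c : ℕ → Fin k) (j : ℕ), j ≤ J 0 →
          ∀ (L : Finset ℕ) (T : Finset (ℕ × ℕ)), (∀ l ∈ L, 1 ≤ l) → (∀ f ∈ T, 1 ≤ f.1 ∧ 1 ≤ f.2) →
            ∃ r C : ℕ, ∃ᶠ x : ℕ in atTop, (x : ℝ) / (Real.log x) ^ C ≤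
              almostPrimes r {n | (∀ l ∈ L, ((P j (Pool.Agent.J6H52.Branch.nd w J c l)).1 * n +
                (P j (Pool.Agent.J6H52.Branch.nd w J c l)).2).Prime) ∧
                ∀ f ∈ T, (f.1 * n + f.2).Prime → ∃ l ∈ L, f = P j (Pool.Agent.J6H52.Branch.nd w J c l)} x := by
    intro k hk P hP hfin
    obtain ⟨w, hw, h⟩ := Pool.Agent.J6H52.AP.mainA k hk
      (fun j t => (((P j t).1 : ℤ), ((P j t).2 : ℤ))) (fun j t => by
        obtain ⟨h1, h2, h3, h4⟩ := hP j t
        refine ⟨?_, ?_, Nat.isCoprime_iff_coprime.2 h3, ?_⟩
        · change (1 : ℤ) ≤ ((P j t).1 : ℤ)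
          exact_mod_cast h1
        · change (1 : ℤ) ≤ ((P j t).2 : ℤ)
          exact_mod_cast h2
        · change Odd (((P j t).1 : ℤ) + ((P j t).2 : ℤ))
          exact_mod_cast h4)
      (fun j c f => (hfin j c (f.1.toNat, f.2.toNat)).subset (fun n hn => by
        change (((P j ((List.range n).map c)).1 : ℤ), ((P j ((List.range n).map c)).2 : ℤ)) = f at hn
        change P j ((List.range n).map c) = (f.1.toNat, f.2.toNat)
        rw [← hn, Int.toNat_natCast, Int.toNat_natCast]))
    refine ⟨w, hw, fun J hJ c j hj L T hL hT => ?_⟩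
    obtain ⟨r, C, h1⟩ := (h J hJ c j hj L hL (T.image fun f => ((f.1 : ℤ), (f.2 : ℤ))) (by
      intro f hf
      obtain ⟨g, hg, rfl⟩ := Finset.mem_image.1 hf
      have h1 := hT g hg
      refine ⟨?_, ?_⟩
      · change (1 : ℤ) ≤ (g.1 : ℤ)
        exact_mod_cast h1.1
      · change (g.2 : ℤ) ≠ 0
        have := h1.2
        omega)).mono (S' := {n | (∀ l ∈ L, ((P j (Pool.Agent.J6H52.Branch.nd w J c l)).1 * n +
                (P j (Pool.Agent.J6H52.Branch.nd w J c l)).2).Prime) ∧
                ∀ f ∈ T, (f.1 * n + f.2).Prime → ∃ l ∈ L, f = P j (Pool.Agent.J6H52.Branch.nd w J c l)}) (by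
      rintro n ⟨h1, h2⟩
      have e : ∀ f : ℕ × ℕ, (((f.1 : ℤ), (f.2 : ℤ)).1 * (n : ℤ) + ((f.1 : ℤ), (f.2 : ℤ)).2).toNat =
          f.1 * n + f.2 := by
        intro f
        have : (f.1 : ℤ) * n + f.2 = ((f.1 * n + f.2 : ℕ) : ℤ) := by push_cast; ring
        simp only
        rw [this, Int.toNat_natCast]
      refine ⟨fun l hl => ?_, fun f hf hp => ?_⟩
      · have h3 := h1 _ (Finset.mem_image_of_mem _ hl)
        rw [e] at h3
        exact h3
      · obtain ⟨l, hl, h3⟩ := Finset.mem_image.1 (h2 _ (Finset.mem_image_of_mem _ hf) (by rw [e]; exact hp))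
        refine ⟨l, hl, ?_⟩
        have h4 := (Prod.mk.inj h3)
        have h5 : (P j (Pool.Agent.J6H52.Branch.nd w J c l)).1 = f.1 := by exact_mod_cast h4.1
        have h6 : (P j (Pool.Agent.J6H52.Branch.nd w J c l)).2 = f.2 := by exact_mod_cast h4.2
        exact (Prod.ext h5 h6).symm)
    exact ⟨r, C, h1⟩
  refine ⟨fun V hV hVe => ?_, fun k hk P hP hfin => ?_⟩
  · -- one letter
    have : Infinite V := hV.to_subtype
    set v : ℕ → ℕ := fun i => ((Infinite.natEmbedding V i : V) : ℕ) with hv
    have hvinj : Function.Injective v := fun i i' h =>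
      (Infinite.natEmbedding V).injective (Subtype.ext h)
    have hvV : ∀ i, v i ∈ V := fun i => (Infinite.natEmbedding V i).2
    obtain ⟨w, hw, h⟩ := hpart2 1 one_pos (fun _ t => (v t.length, 1))
      (fun _ t => ⟨(hVe _ (hvV _)).1, le_rfl, Nat.coprime_one_right _,
        (hVe _ (hvV t.length)).2.add_one⟩)
      (fun _ c f => by
        refine Set.Subsingleton.finite ?_
        intro n hn n' hn'
        have h1 : (v n, 1) = f := by simpa using hn
        have h2 : (v n', 1) = f := by simpa using hn'
        rw [← h2] at h1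
        exact hvinj (Prod.mk.inj h1).1)
    set c : ℕ → Fin 1 := fun _ => 0 with hc
    set nd : ℕ → List (Fin 1) := fun l => Pool.Agent.J6H52.Branch.nd w id c l with hnd
    have hlen : StrictMono fun l => (nd l).length :=
      Pool.Agent.J6H52.Branch.chain_length (Pool.Agent.J6H52.Branch.nd_branch w hw id c)
    set g : ℕ → ℕ := fun l => v (nd (l + 1)).length with hg
    have hginj : Function.Injective g := by
      intro l l' hll
      have h1 := hlen.injective (hvinj hll)
      omega
    refine ⟨Set.range g, ?_, Set.infinite_range_of_injective hginj, fun F T hF => ?_⟩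
    · rintro _ ⟨l, rfl⟩
      exact hvV _
    have hL : ∃ L : Finset ℕ, F = L.image g := by
      refine ⟨F.preimage g hginj.injOn, ?_⟩
      ext a
      simp only [Finset.mem_image, Finset.mem_preimage]
      constructor
      · intro ha
        obtain ⟨l, rfl⟩ := hF ha
        exact ⟨l, ha, rfl⟩
      · rintro ⟨l, hl, rfl⟩
        exact hl
    obtain ⟨L, rfl⟩ := hL
    obtain ⟨r, C, h1⟩ := h id strictMono_id c 0 (Nat.zero_le _) (L.image (· + 1))
      ((T.filter (1 ≤ ·)).image fun b => (b, 1)) (by
        intro l hl
        obtain ⟨l', _, rfl⟩ := Finset.mem_image.1 hl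
        omega) (by
        intro f hf
        obtain ⟨b, hb, rfl⟩ := Finset.mem_image.1 hf
        exact ⟨(Finset.mem_filter.1 hb).2, le_rfl⟩)
    have hM : Pool.Agent.J6H52.AP.Many {n : ℕ | (∀ l ∈ L.image (· + 1), (v (nd l).length * n + 1).Prime) ∧
        ∀ f ∈ (T.filter (1 ≤ ·)).image (fun b => (b, 1)), (f.1 * n + f.2).Prime →
          ∃ l ∈ L.image (· + 1), f = (v (nd l).length, 1)} := ⟨r, C, h1⟩
    refine hM.mono ?_
    rintro n ⟨h2, h3⟩
    refine ⟨fun a ha => ?_, fun b hb hp => ?_⟩
    · obtain ⟨l, hl, rfl⟩ := Finset.mem_image.1 ha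
      exact h2 (l + 1) (Finset.mem_image_of_mem _ hl)
    · have hb1 : 1 ≤ b := by
        rcases Nat.eq_zero_or_pos b with rfl | h
        · rw [Nat.zero_mul, Nat.zero_add] at hp
          exact absurd hp Nat.not_prime_one
        · exact h
      obtain ⟨l', hl', h4⟩ := h3 (b, 1) (Finset.mem_image_of_mem _ (Finset.mem_filter.2 ⟨hb, hb1⟩)) hp
      obtain ⟨l, hl, rfl⟩ := Finset.mem_image.1 hl'
      rw [Finset.mem_image]
      exact ⟨l, hl, (Prod.mk.inj h4).1.symm⟩
  · obtain ⟨w, hw, h⟩ := hpart2 k hk P hP hfin
    exact ⟨w, hw, fun J hJ c j hj L T hL hT => h J hJ c j hj L T hL hT⟩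

end Pool.Agent.Results.MP_bca3e5_nt.AlmostPrimeBranches
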