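import Mathlib
import Pool.Agent.J6H52.AP.DenseScales

/-!
# Dense sets of multipliers `a_i` with simultaneous primes `a_i n + 1` along almost primes `n`, at a positive
proportion of the scales

Let `a_0, a_1, …` be a sequence of multipliers for which the whole infinite system `n, a_0 n + 1, a_1 n + 1, …` is
admissible (for every prime `p` some `n` makes `p` divide none of its members; for example `a_i = (i + 2)!`, or
multiples of the primorials), and let `ε > 0`. We find a set `I` of indices with at least `(log X) ^ (1 - ε)`
elements below `X` for arbitrarily large `X`, all of whose finite subsets `F` satisfy the assertion of the question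
with an almost prime `n` in place of a prime `n`, at a positive proportion of the scales: let `y_0 < y_1 < …` be any
sequence of scales given in advance, for instance `y_k = 2 ^ k` or a very sparse one. There are `r`, `C` and `c > 0`
such that for infinitely many `K` at least `c K` of the `y_k`, `k < K`, have the property that at least
`x / (log x) ^ C` integers `n ≤ x = y_k` have at most `r` prime factors, all larger than `x ^ (1 / r)`, and are such
that `a_i n + 1` is prime for all `i ∈ F`. Moreover all the other numbers `a n + b` of any given finite set, whether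
they belong to the sequence or not, are composite: the finite pattern of the primes is exact. Instead of `a_i n + 1`
we may take any forms `a_i n + b_i`.

The question asks for such `n` at all large scales. The patterns for infinite sets and trees of multipliers in
`AlmostPrimeBranches` and `TreesOfAdmissibleSets` occur at arbitrarily large scales, of which nothing else is known,
and the infinite subsets found there are of no known density.

Proof. The block sieve with an almost prime argument (`Pool.Agent.J6H52.AP.sieve_out'`) gives, at every large scale,
weights on the almost primes of a residue class which give to each block of forms a positive mass, with a bounded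
second moment. Their averages over the scales `y_k`, `k < K`, converge along an ultrafilter to a finitely additive
measure; a set of positive measure has positive weight at a positive proportion of the scales (`measS`). The limit
over the blocks, the growth of the blocks and the density of the set of the blocks that are hit are taken from the
starting files (`Pool.Agent.H361R2.Inf`: `exists_blocks_growth`, `comb_density`, `count_of_blocks`).
-/

set_option autoImplicit false

open Filter

namespace Pool.Agent.Results.MP_bca3e5_nt.DensePatternsManyScales

open Classical in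
/-- the number of the `n ≤ x` in `S` with at most `r` prime factors (counted with multiplicity), all of them larger
than `x ^ (1 / r)` -/
noncomputable def almostPrimes (r : ℕ) (S : Set ℕ) (x : ℕ) : ℕ :=
  ((Finset.Icc 1 x).filter (fun n : ℕ => n.primeFactorsList.length ≤ r ∧
    (∀ q : ℕ, q.Prime → q ∣ n → x < q ^ r) ∧ n ∈ S)).card

open Classical in
/-- Let `y 0 < y 1 < …` be integers (the scales), and let `a i n + b i`, `i = 0, 1, …`, be different forms with
`a i, b i ≥ 1` such that for every prime `p` some `n` makes `p` divide none of the numbers `n`, `a i n + b i`. For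
every `ε > 0` there is a set `I` with at least `(log X) ^ (1 - ε)` elements below `X` for arbitrarily large `X`, such
that for every finite set `T` of pairs of positive integers there are `r`, `C` and `c > 0` such that for arbitrarily
large `K` at least `c K` of the scales `x = y k`, `k < K`, have the property that at least `x / (log x) ^ C` integers
`n ≤ x` with at most `r` prime factors, all larger than `x ^ (1 / r)`, satisfy: for all `(a, b) ∈ T` the number
`a n + b` is prime if and only if `(a, b)` is one of the pairs `(a i, b i)`, `i ∈ I`. -/
theorem result (y : ℕ → ℕ) (hy : StrictMono y) (a b : ℕ → ℕ) (ha : ∀ i, 1 ≤ a i) (hb : ∀ i, 1 ≤ b i)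
    (hinj : Function.Injective fun i => (a i, b i))
    (hadm : ∀ p : ℕ, p.Prime → ∃ n : ℕ, ¬ p ∣ n ∧ ∀ i, ¬ p ∣ a i * n + b i) (ε : ℝ) (hε : 0 < ε) :
    ∃ I : Set ℕ, (∃ᶠ X : ℕ in atTop, (Real.log X) ^ (1 - ε) ≤ ((I ∩ Set.Iio X).ncard : ℝ)) ∧
      ∀ T : Finset (ℕ × ℕ), (∀ f ∈ T, 1 ≤ f.1 ∧ 1 ≤ f.2) →
        ∃ (r C : ℕ) (c : ℝ), 0 < c ∧ ∃ᶠ K : ℕ in atTop, c * K ≤
          (((Finset.range K).filter fun k => (y k : ℝ) / (Real.log (y k)) ^ C ≤
            almostPrimes r {n | ∀ f ∈ T, ((f.1 * n + f.2).Prime ↔ ∃ i ∈ I, f = (a i, b i))} (y k)).card : ℝ) := by
  obtain ⟨I, hI, h⟩ := Pool.Agent.J6H52.AP.dense y hy a b ha hb hinj hadm ε hε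
  refine ⟨I, hI, fun T hT => ?_⟩
  have h1 := (h (T.image fun f => ((f.1 : ℤ), (f.2 : ℤ))) (by
    intro f hf
    obtain ⟨g, hg, rfl⟩ := Finset.mem_image.1 hf
    have h1 := hT g hg
    refine ⟨?_, ?_⟩
    · change (1 : ℤ) ≤ (g.1 : ℤ)
      exact_mod_cast h1.1
    · change (g.2 : ℤ) ≠ 0
      have := h1.2
      omega)).mono (S' := {n | ∀ f ∈ T, ((f.1 * n + f.2).Prime ↔ ∃ i ∈ I, f = (a i, b i))}) (by
    intro n h1 f hf
    have h3 := h1 _ (Finset.mem_image_of_mem _ hf)
    have e : (((f.1 : ℤ), (f.2 : ℤ)).1 * (n : ℤ) + ((f.1 : ℤ), (f.2 : ℤ)).2).toNat = f.1 * n + f.2 := by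
      have : (f.1 : ℤ) * n + f.2 = ((f.1 * n + f.2 : ℕ) : ℤ) := by push_cast; ring
      simp only
      rw [this, Int.toNat_natCast]
    rw [e] at h3
    rw [h3]
    constructor
    · rintro ⟨i, hi, hfi⟩
      refine ⟨i, hi, ?_⟩
      have h4 := Prod.mk.inj hfi
      exact Prod.ext (by exact_mod_cast h4.1) (by exact_mod_cast h4.2)
    · rintro ⟨i, hi, hfi⟩
      exact ⟨i, hi, by rw [hfi]⟩)
  obtain ⟨r, C, c, hc, h2⟩ := h1
  refine ⟨r, C, c, hc, h2.mono fun K hK => ?_⟩
  unfold Pool.Agent.J6H52.AP.num at hK
  refine hK.trans (le_of_eq ?_)
  congr 2

end Pool.Agent.Results.MP_bca3e5_nt.DensePatternsManyScales
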