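import Mathlib
import Pool.Agent.J6H52.AP.Rows
import Pool.Agent.J6H52.Branch.Chains

/-!
# Trees of admissible sets of multipliers: free choices along all branches, with almost prime arguments

For every `j` attach to every finite word `t` over an alphabet with `k ≥ 1` letters an admissible set
`𝒜_t = {a_1, …, a_n}` of `n = n_j` multipliers, in the sense of the question (for every prime `p ≤ n + 1` some `c` is
such that `p` divides neither `c` nor any `a_r c + 1`), or more generally `n` forms `a_r c + b_r`, `a_r, b_r ≥ 1`
coprime, with this property. In each row `r` no form occurs infinitely often along one infinite branch. There are a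
set `S_j` of at least `n_j / 400` rows and a regular subtree (in the sense of Carlson and Simpson) such that on EVERY
branch of the subtree, for ARBITRARY choices of a row in `S_j` at each vertex, the assertion of the question holds
for the chosen multipliers with almost primes `n` in place of primes: for any finite set of vertices of the branch
there are `r` and `C` such that for arbitrarily large `x` at least `x / (log x) ^ C` integers `n ≤ x` have at most `r`
prime factors, all larger than `x ^ (1 / r)`, and are such that `a n + 1` is prime for all the chosen multipliers `a`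
(and composite for the members of any given finite set of multipliers which do not occur in the tree). For `k = 1`
the tree is a sequence of admissible sets: from every sequence `𝒜_1, 𝒜_2, …` of admissible `n`-element sets one can
select a subsequence and `n / 400` of the `n` rows such that all choices (with respect to the ordering of the sets)
work. (With all rows in place of `n / 400` rows this would contain the lower bound of the question, for almost
primes, for the sets themselves.)

The sieve with almost prime arguments is the one of `AlmostPrimeBranches` (`Pool.Agent.J6H52.AP.meas`, `seqP`); its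
block sizes do not depend on the number of the blocks. Infinitely many groups of `n` consecutive blocks have many
blocks which meet the pattern (`classesA`), and the passage to trees is by ranks of patterns and Carlson-Simpson
ultrafilters (`rowsA`, `main_rowsA`).
-/

set_option autoImplicit false

open Filter

namespace Pool.Agent.Results.MP_bca3e5_nt.TreesOfAdmissibleSets

open Classical in
/-- the number of the `n ≤ x` in `S` with at most `r` prime factors (counted with multiplicity), all of them larger
than `x ^ (1 / r)` -/
noncomputable def almostPrimes (r : ℕ) (S : Set ℕ) (x : ℕ) : ℕ :=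
  ((Finset.Icc 1 x).filter (fun n : ℕ => n.primeFactorsList.length ≤ r ∧
    (∀ q : ℕ, q.Prime → q ∣ n → x < q ^ r) ∧ n ∈ S)).card

/-- For `j = 0, 1, …` let `P j` attach to every word over `k ≥ 1` letters `n j ≥ 1` pairs `(a, b)` (the rows) of
coprime positive integers, such that for every word and every prime `p ≤ n j + 1` some `m` is such that `p` divides
neither `m` nor any `a m + b`; each row is finite-to-one along every infinite branch. There are sets `S j` of at
least `n j / 400` rows and variable words `w 0, w 1, …` (`none` is the variable) such that for all increasing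
sequences `J`, all sequences `c` of letters, all `j ≤ J 0`, all choices `s` of rows in `S j`, all finite sets `L` of
positive integers and `T` of pairs which do not occur in the `j`-th tree there are `r` and `C` such that for
arbitrarily large `x` at least `x / (log x) ^ C` integers `m ≤ x` with at most `r` prime factors, all larger than
`x ^ (1 / r)`, have the property that the forms `a m + b` in row `s l` at the words
`node l = w (J 0)[c 0] ⋯ w (J (l - 1))[c (l - 1)]`, `l ∈ L`, are all prime, and no form of `T` is prime. -/
theorem result (k : ℕ) (hk : 0 < k) (n : ℕ → ℕ) (hn : ∀ j, 1 ≤ n j)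
    (P : ∀ j, List (Fin k) → Fin (n j) → ℕ × ℕ)
    (hP : ∀ j t i, 1 ≤ (P j t i).1 ∧ 1 ≤ (P j t i).2 ∧ (P j t i).1.Coprime (P j t i).2)
    (hfin : ∀ j (c : ℕ → Fin k) i (f : ℕ × ℕ), {m : ℕ | P j ((List.range m).map c) i = f}.Finite)
    (hadm : ∀ j t, ∀ p : ℕ, p.Prime → p ≤ n j + 1 →
      ∃ m : ℕ, ¬ p ∣ m ∧ ∀ i, ¬ p ∣ (P j t i).1 * m + (P j t i).2) :
    ∃ (S : ∀ j, Finset (Fin (n j))) (w : ℕ → List (Option (Fin k))),
      (∀ j, n j ≤ 400 * (S j).card) ∧ (∀ i, none ∈ w i) ∧
      ∀ J : ℕ → ℕ, StrictMono J → ∀ (c : ℕ → Fin k) (j : ℕ), j ≤ J 0 →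
        let node : ℕ → List (Fin k) := fun l =>
          (List.range l).flatMap fun i => (w (J i)).map fun o => o.getD (c i)
        ∀ s : ℕ → Fin (n j), (∀ l, s l ∈ S j) → ∀ (L : Finset ℕ) (T : Finset (ℕ × ℕ)), (∀ l ∈ L, 1 ≤ l) →
          (∀ f ∈ T, 1 ≤ f.1 ∧ 1 ≤ f.2 ∧ ∀ t i, f ≠ P j t i) →
          ∃ r C : ℕ, ∃ᶠ x : ℕ in atTop, (x : ℝ) / (Real.log x) ^ C ≤
            almostPrimes r {m | (∀ l ∈ L, ((P j (node l) (s l)).1 * m + (P j (node l) (s l)).2).Prime) ∧
              ∀ f ∈ T, ¬ (f.1 * m + f.2).Prime} x := by
  classical
  obtain ⟨S, w, hS, hw, h⟩ := Pool.Agent.J6H52.AP.main_rowsA k hk n hn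
    (fun j t i => (((P j t i).1 : ℤ), ((P j t i).2 : ℤ)))
    (fun j t i => by
      obtain ⟨h1, h2, h3⟩ := hP j t i
      refine ⟨?_, ?_, Nat.isCoprime_iff_coprime.2 h3⟩
      · change (1 : ℤ) ≤ ((P j t i).1 : ℤ)
        exact_mod_cast h1
      · change (1 : ℤ) ≤ ((P j t i).2 : ℤ)
        exact_mod_cast h2)
    (fun j c i f => (hfin j c i (f.1.toNat, f.2.toNat)).subset (fun m hm => by
      change (((P j ((List.range m).map c) i).1 : ℤ), ((P j ((List.range m).map c) i).2 : ℤ)) = f at hm
      change P j ((List.range m).map c) i = (f.1.toNat, f.2.toNat)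
      rw [← hm, Int.toNat_natCast, Int.toNat_natCast]))
    (fun j t p hp hpn => by
      obtain ⟨m, h1, h2⟩ := hadm j t p hp hpn
      refine ⟨m, fun h => h1 (Int.natCast_dvd_natCast.1 h), fun i h => h2 i ?_⟩
      have h3 : (p : ℤ) ∣ (((P j t i).1 * m + (P j t i).2 : ℕ) : ℤ) := by
        push_cast
        exact h
      exact Int.natCast_dvd_natCast.1 h3)
  refine ⟨S, w, hS, hw, fun J hJ c j hj s hs L T hL hT => ?_⟩
  have e : ∀ (f : ℕ × ℕ) (m : ℕ), (((f.1 : ℤ), (f.2 : ℤ)).1 * (m : ℤ) + ((f.1 : ℤ), (f.2 : ℤ)).2).toNat =
      f.1 * m + f.2 := by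
    intro f m
    have : (f.1 : ℤ) * m + f.2 = ((f.1 * m + f.2 : ℕ) : ℤ) := by push_cast; ring
    simp only
    rw [this, Int.toNat_natCast]
  refine (h J hJ c j hj s hs L hL (T.image fun f => ((f.1 : ℤ), (f.2 : ℤ))) ?_).mono ?_
  · intro f hf
    obtain ⟨g, hg, rfl⟩ := Finset.mem_image.1 hf
    have h1 := hT g hg
    refine ⟨?_, ?_, fun t i h2 => h1.2.2 t i ?_⟩
    · change (1 : ℤ) ≤ (g.1 : ℤ)
      exact_mod_cast h1.1
    · change (g.2 : ℤ) ≠ 0
      have := h1.2.1
      omega
    · have h3 := Prod.mk.inj h2
      exact Prod.ext (by exact_mod_cast h3.1) (by exact_mod_cast h3.2)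
  · rintro m ⟨h1, h2⟩
    refine ⟨fun l hl => ?_, fun f hf hp => ?_⟩
    · have h3 := h1 _ (Finset.mem_image_of_mem _ hl)
      rw [e] at h3
      exact h3
    · exact h2 _ (Finset.mem_image_of_mem _ hf) (by rw [e]; exact hp)

end Pool.Agent.Results.MP_bca3e5_nt.TreesOfAdmissibleSets
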